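import Pool.Agent.MP_d5eec5_gt.H77.KNum

/-! Uniqueness of the descending choice of crossings. -/

set_option autoImplicit false

namespace Pool.Agent.MP_d5eec5_gt.H77

open Pool.Agent.MP_d5eec5_gt.H48 Kind

/-- Every pair of first parity `r` belongs to the tail or has a predecessor. -/
def tuP (r : ℕ) (T R : List (ℕ × ℕ)) : Prop := ∀ z ∈ R, z.1 % 2 = r →
  z ∈ T ∨ ∃ y ∈ R, y.1 + 1 = z.1 ∧ (y.2 % 2 ≠ r → y.2 + 1 = z.2)

theorem tuP.append {r : ℕ} {T R T' R' : List (ℕ × ℕ)} (h : tuP r T R) (h' : tuP r T' R') :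
    tuP r (T ++ T') (R ++ R') := by
  intro z hz e
  rcases List.mem_append.mp hz with hz | hz
  · rcases h z hz e with q | ⟨y, q, q'⟩
    · exact Or.inl (List.mem_append_left _ q)
    · exact Or.inr ⟨y, List.mem_append_left _ q, q'⟩
  · rcases h' z hz e with q | ⟨y, q, q'⟩
    · exact Or.inl (List.mem_append_right _ q)
    · exact Or.inr ⟨y, List.mem_append_right _ q, q'⟩

theorem tuP.nil (r : ℕ) (T : List (ℕ × ℕ)) : tuP r T [] := fun _ hz => by simp at hz

theorem tuP.pair {r t t' : ℕ} {Y : List (ℕ × ℕ)} (h : t % 2 ≠ r) (h' : t' % 2 ≠ r) (hr : r < 2)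
    (e : Y.map Prod.fst = [t, t + 1] ∨ Y.map Prod.fst = [t + 1, t])
    (e' : Y.map Prod.snd = [t', t' + 1] ∨ Y.map Prod.snd = [t' + 1, t']) : tuP r [] Y := by
  obtain ⟨⟨a, a'⟩, ⟨b, b'⟩, rfl⟩ : ∃ a b, Y = [a, b] := List.length_eq_two.mp (by
    rcases e with e | e <;> simpa using congrArg List.length e)
  simp only [List.map_cons, List.map_nil, List.cons.injEq, and_true] at e e'
  intro z hz q
  simp only [List.mem_cons, List.not_mem_nil, or_false] at hz
  rcases hz with rfl | rfl
  · exact Or.inr ⟨(b, b'), by simp, by simp only at q ⊢; omega⟩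
  · exact Or.inr ⟨(a, a'), by simp, by simp only at q ⊢; omega⟩

theorem tu_loc {k k' : Kind} {X : List (ℕ × ℕ)} {y y' : List ℕ} (p : ℕ) (e : flK k = flK k')
    (h : Loc true k (X.map Prod.fst) y) (h' : Loc true k' (X.map Prod.snd) y') :
    ∃ Y R D T : List (ℕ × ℕ), Y.map Prod.fst = y ∧ Y.map Prod.snd = y' ∧
      (Y ++ D).Perm (X ++ R) ∧ T.length = (if IsEnd false (p, k) then 1 else 0) ∧
      (∀ z ∈ T, z.1 % 2 = z.2 % 2) ∧ tuP 0 T R ∧ tuP 1 T D ∧
      ((∀ y ∈ X, ∀ z ∈ X, y.1 < z.1 ↔ y.2 < z.2) → k = k') := by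
  cases k with
  | cup =>
    obtain rfl : k' = cup := by cases k' <;> simp [flK] at e ⊢
    obtain ⟨hx, t, ht, hy⟩ := h
    obtain ⟨-, t', ht', hy'⟩ := h'
    obtain rfl := List.map_eq_nil_iff.mp hx
    rw [Nat.odd_iff] at ht ht'
    have h1 : y.length = y'.length := by rcases hy with rfl | rfl <;> rcases hy' with rfl | rfl <;> rfl
    have h2 := List.map_fst_zip h1.le
    have h3 := List.map_snd_zip h1.ge
    exact ⟨y.zip y', y.zip y', [], [], h2, h3, by simp, by simp [IsEnd], by simp,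
      tuP.pair (t := t) (t' := t') (by omega) (by omega) (by omega) (h2.symm ▸ hy) (h3.symm ▸ hy'),
      tuP.nil _ _, fun _ => rfl⟩
  | cap =>
    obtain rfl : k' = cap := by cases k' <;> simp [flK] at e ⊢
    obtain ⟨rfl, t, ht, hx⟩ := h
    obtain ⟨rfl, t', ht', hx'⟩ := h'
    rw [Nat.even_iff] at ht ht'
    exact ⟨[], [], X, [], rfl, rfl, by simp, by simp [IsEnd], by simp, tuP.nil _ _,
      tuP.pair (t := t) (t' := t') (by omega) (by omega) (by omega) hx hx', fun _ => rfl⟩
  | cr b =>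
    obtain ⟨b', rfl⟩ : ∃ b', k' = cr b' := by cases k' <;> simp [flK] at e ⊢
    obtain ⟨s, t, hx, rfl, hb⟩ := h
    obtain ⟨s', t', hx', rfl, hb'⟩ := h'
    obtain ⟨⟨a, a'⟩, ⟨c, c'⟩, rfl⟩ : ∃ a b, X = [a, b] :=
      List.length_eq_two.mp (by simpa using congrArg List.length hx)
    simp only [List.map_cons, List.map_nil, List.cons.injEq, and_true] at hx hx'
    obtain ⟨rfl, rfl⟩ := hx
    obtain ⟨rfl, rfl⟩ := hx'
    refine ⟨[(c, c'), (a, a')], [], [], [], rfl, rfl, List.Perm.swap _ _ _, by simp [IsEnd],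
      by simp, tuP.nil _ _, tuP.nil _ _, fun q => ?_⟩
    have := q (a, a') (by simp) (c, c') (by simp)
    rw [Bool.eq_iff_iff.mpr ((hb rfl).trans (this.trans (hb' rfl).symm))]
  | up f =>
    obtain rfl : k' = up f := by cases k' <;> simp [flK] at e ⊢; exact e.symm
    obtain ⟨hx, t, rfl, ht⟩ := h
    obtain ⟨-, t', rfl, ht'⟩ := h'
    obtain rfl := List.map_eq_nil_iff.mp hx
    rw [Nat.odd_iff] at ht ht'
    cases f with
    | false =>
      simp only [Bool.false_eq_true, iff_false] at ht ht'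
      exact ⟨[(t, t')], [(t, t')], [], [(t, t')], rfl, rfl, by simp, by simp [IsEnd],
        by simp; omega, fun z hz _ => Or.inl hz, tuP.nil _ _, fun _ => rfl⟩
    | true =>
      simp only [iff_true] at ht ht'
      exact ⟨[(t, t')], [(t, t')], [], [], rfl, rfl, by simp, by simp [IsEnd], by simp,
        fun z hz q => by simp at hz; subst hz; simp at q; omega, tuP.nil _ _, fun _ => rfl⟩
  | dn f =>
    obtain rfl : k' = dn f := by cases k' <;> simp [flK] at e ⊢; exact e.symm
    obtain ⟨rfl, t, hx, ht⟩ := h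
    obtain ⟨rfl, t', hx', ht'⟩ := h'
    obtain ⟨⟨a, a'⟩, rfl⟩ : ∃ a, X = [a] :=
      List.length_eq_one_iff.mp (by simpa using congrArg List.length hx)
    simp only [List.map_cons, List.map_nil, List.cons.injEq, and_true] at hx hx'
    subst hx hx'
    rw [Nat.even_iff] at ht ht'
    cases f with
    | false =>
      simp only [Bool.false_eq_true, iff_false] at ht ht'
      exact ⟨[], [], [(a, a')], [(a, a')], rfl, rfl, by simp, by simp [IsEnd],
        by simp; omega, tuP.nil _ _, fun z hz _ => Or.inl hz, fun _ => rfl⟩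
    | true =>
      simp only [iff_true] at ht ht'
      exact ⟨[], [], [(a, a')], [], rfl, rfl, by simp, by simp [IsEnd], by simp, tuP.nil _ _,
        fun z hz q => by simp at hz; subst hz; simp at q; omega, fun _ => rfl⟩

theorem tu_joint (w : List Gen) : ∀ (w' : List Gen) (L : List (ℕ × ℕ)) (m C m' C' : List ℕ),
    fl w = fl w' → Num true (L.map Prod.fst) w m C → Num true (L.map Prod.snd) w' m' C' →
    ∃ M R D T : List (ℕ × ℕ), M.map Prod.fst = m ∧ (M ++ D).Perm (L ++ R) ∧
      T.length = w.countP (IsEnd false) ∧ (∀ z ∈ T, z.1 % 2 = z.2 % 2) ∧ tuP 0 T R ∧ tuP 1 T D ∧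
      ((∀ y ∈ L ++ R, ∀ z ∈ L ++ R, y.1 < z.1 ↔ y.2 < z.2) → w = w') := by
  induction w with
  | nil =>
    intro w' L m C m' C' e h _
    obtain rfl : w' = [] := List.length_eq_zero_iff.mp (by simpa using (congrArg List.length e).symm)
    exact ⟨L, [], [], [], (Num.nil_iff.mp h).1.symm, List.Perm.refl _, rfl, by simp, tuP.nil _ _,
      tuP.nil _ _, fun _ => rfl⟩
  | cons g w ih =>
    intro w' L m C m' C' e h h'
    obtain ⟨p, k⟩ := g
    cases w' with
    | nil => simp at e
    | cons g' w' =>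
      obtain ⟨p', k'⟩ := g'
      simp only [fl_cons, List.cons.injEq, Prod.mk.injEq] at e
      obtain ⟨⟨rfl, hk⟩, e⟩ := e
      obtain ⟨l₁, l₂, x, y, C₁, e1, e2, h1, h2, -⟩ := Num.cons_iff.mp h
      obtain ⟨l₁', l₂', x', y', C₁', e1', e2', h1', h2', -⟩ := Num.cons_iff.mp h'
      obtain ⟨L₀, L₂, rfl, e3, rfl⟩ := List.map_eq_append_iff.mp e1
      obtain ⟨L₁, X, rfl, rfl, rfl⟩ := List.map_eq_append_iff.mp e3
      have e4 : (X.map Prod.snd).length = x'.length := by
        rw [h1'.length.1, ← win_flK, ← hk, win_flK, ← h1.length.1, List.length_map,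
          List.length_map]
      rw [List.map_append, List.map_append, List.append_assoc, List.append_assoc] at e1'
      obtain ⟨rfl, e5⟩ := List.append_inj e1' (by rw [e2', ← e2, List.length_map, List.length_map])
      obtain ⟨rfl, rfl⟩ := List.append_inj e5 e4
      obtain ⟨Y, R₀, D₀, T₀, rfl, rfl, q1, q2, q3, q4, q5, q6⟩ := tu_loc p hk h1 h1'
      obtain ⟨M, R, D, T, r0, r1, r2, r3, r4, r5, r6⟩ := ih w' (L₁ ++ Y ++ L₂) m C₁ m' C₁' e
        (by simpa only [List.map_append] using h2) (by simpa only [List.map_append] using h2')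
      refine ⟨M, R₀ ++ R, D₀ ++ D, T₀ ++ T, r0, ?_, ?_, ?_, q4.append r4, q5.append r5,
        fun q => ?_⟩
      · rw [List.perm_iff_count] at q1 r1 ⊢
        intro a
        have := q1 a
        have := r1 a
        simp only [List.count_append] at *
        omega
      · rw [List.length_append, List.countP_cons, q2, r2, add_comm]
      · intro z hz
        exact (List.mem_append.mp hz).elim (q3 z) (r3 z)
      · have hs : ∀ z ∈ L₁ ++ Y ++ L₂ ++ R, z ∈ L₁ ++ X ++ L₂ ++ (R₀ ++ R) := fun z hz => by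
          have := fun hz => q1.subset (List.mem_append_left D₀ (a := z) hz)
          simp only [List.mem_append] at hz this ⊢
          tauto
        rw [q6 fun y hy z hz => q y (by simp [hy]) z (by simp [hz]),
          r6 fun y hy z hz => q y (hs y hy) z (hs z hz)]

theorem tu : StmtTU := by
  rintro w w' e ⟨h1, -, C, h, -⟩ ⟨-, -, C', h', -⟩
  obtain ⟨M, R, D, T, r0, r1, r2, r3, r4, r5, r6⟩ := tu_joint w w' [] [] C [] C' e h h'
  obtain rfl := List.map_eq_nil_iff.mp r0
  obtain ⟨z₀, rfl⟩ := List.length_eq_one_iff.mp (r2.trans h1)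
  simp only [List.nil_append] at r1 r6
  have key : ∀ n, ∀ z ∈ R, z.1 = n → z.1 % 2 = z.2 % 2 ∧ z.2 + z₀.1 = z.1 + z₀.2 := by
    intro n
    induction n using Nat.strong_induction_on with
    | _ n ih =>
      intro z hz hn
      have h0 : z ∈ [z₀] → z.1 % 2 = z.2 % 2 ∧ z.2 + z₀.1 = z.1 + z₀.2 := fun q =>
        ⟨r3 z q, by rw [List.mem_singleton.mp q, add_comm]⟩
      rcases Nat.mod_two_eq_zero_or_one z.1 with q | q
      · rcases r4 z hz q with q' | ⟨y, hy, q1, q2⟩
        · exact h0 q'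
        · have := ih y.1 (by omega) y hy rfl
          omega
      · rcases r5 z (r1.symm.subset hz) q with q' | ⟨y, hy, q1, q2⟩
        · exact h0 q'
        · have := ih y.1 (by omega) y (r1.subset hy) rfl
          omega
  refine r6 fun y hy z hz => ?_
  have := key _ y hy rfl
  have := key _ z hz rfl
  omega

end Pool.Agent.MP_d5eec5_gt.H77
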